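import Mathlib
import Pool.Agent.Results.MP_027f17_mp.DegenerateLaws
import Pool.Agent.Y594.CF.GenLaw
import Pool.Agent.Y594.CF.Conv
import Pool.Agent.Y594.CF.Forms

/-!
# MP_027f17_mp: nondegenerate conservation laws and invariant forms

The definitions `system`, `Conditions` and `HasNondegenerateLaw` are those of the starting file
`DegenerateLaws`. Here `constBeta c` is the tensor with constant components `c` (in
`Pool/Agent/Y594/CF/GenLaw.lean`), and `single v c` (in `Pool/Agent/Y594/CF/Forms.lean`) is the
cubic map whose only component is the cubic form `c`, placed at `v`.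
-/

namespace Pool.Agent.Results.MP_027f17_mp.InvariantForms

open Pool.Agent.Results.MP_027f17_mp.DegenerateLaws
open Pool.Agent.Y594.CF.GenLaw Pool.Agent.Y594.CF.Conv Pool.Agent.Y594.CF.Forms

/-- `M` is a nondegenerate symmetric bilinear form which is invariant under the cubic map with
components `c`: lowering the upper index of `c` with `M` gives a totally symmetric tensor. -/
def IsInvariantForm {N : ℕ} (c : Fin N → Fin N → Fin N → Fin N → ℝ)
    (M : Matrix (Fin N) (Fin N) ℝ) : Prop :=
  M.IsSymm ∧ M.det ≠ 0 ∧ ∀ i j k l, ∑ b, M i b * c b j k l = ∑ b, M j b * c b i k l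

lemma classification {N : ℕ} {c : Fin N → Fin N → Fin N → Fin N → ℝ}
    (hc : ∀ b i j k, c b i j k = c b j i k ∧ c b i j k = c b i k j) :
    ((∃ k, 1 ≤ k ∧ HasNondegenerateLaw (system (fun _ _ _ => 0) (constBeta c)) k) ↔
      ∃ M, IsInvariantForm c M) ∧
    ((∃ M, IsInvariantForm c M) →
      HasNondegenerateLaw (system (fun _ _ _ => 0) (constBeta c)) 1) := by
  have h1 : (∃ M, IsInvariantForm c M) →
      HasNondegenerateLaw (system (fun _ _ _ => 0) (constBeta c)) 1 := by
    rintro ⟨M, hM, hdet, hinv⟩
    exact law_of_form hM hdet hc hinv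
  refine ⟨⟨?_, fun h => ⟨1, le_rfl, h1 h⟩⟩, h1⟩
  rintro ⟨k, hk, p, ρ, h, hdet⟩
  obtain ⟨k, rfl⟩ : ∃ m, k = m + 1 := ⟨k - 1, by omega⟩
  obtain ⟨h2, h3⟩ := law_form hc k p ρ h
  exact ⟨_, h2, hdet, h3⟩

/-- **Main theorem.** Consider the systems of the problem with `α = 0` and constant `β`.

(1) For every `N` and every constant symmetric `β`, the system has a nondegenerate local
conservation law of some order `≥ 1` if and only if `β` has a nondegenerate invariant symmetric
form, and then it has one of order 1.

(2) If the only nonzero component of `β` is a cubic form `c` in the other unknowns, then (C1)-(C5)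
hold, and there is a nondegenerate law of some order `≥ 1` if and only if `c` is a multiple of the
cube of a linear form.

(3) For `N ≤ 2`, (C1)-(C5) imply that there is a nondegenerate law of order 1.

(4) For every `N ≥ 3` there is a constant symmetric `β` such that (C1)-(C5) hold and there is no
nondegenerate local conservation law of any order `≥ 1`; so the answer to Q1 is negative for every
`N ≥ 3`, and `N = 3` is the least dimension for `α = 0` and constant `β`. -/
theorem result :
    (∀ (N : ℕ) (c : Fin N → Fin N → Fin N → Fin N → ℝ),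
      (∀ b i j k, c b i j k = c b j i k ∧ c b i j k = c b i k j) →
      ((∃ k, 1 ≤ k ∧ HasNondegenerateLaw (system (fun _ _ _ => 0) (constBeta c)) k) ↔
        ∃ M, IsInvariantForm c M) ∧
      ((∃ M, IsInvariantForm c M) →
        HasNondegenerateLaw (system (fun _ _ _ => 0) (constBeta c)) 1)) ∧
    (∀ (N : ℕ) (v : Fin N) (c : Fin N → Fin N → Fin N → ℝ),
      (∀ i j k, c i j k = c j i k ∧ c i j k = c i k j) → (∀ j k, c v j k = 0) →
      Conditions (fun _ _ _ => 0) (constBeta (single v c)) ∧
      ((∃ k, 1 ≤ k ∧ HasNondegenerateLaw (system (fun _ _ _ => 0) (constBeta (single v c))) k) ↔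
        ∃ (a : ℝ) (w : Fin N → ℝ), ∀ i j k, c i j k = a * w i * w j * w k)) ∧
    (∀ N ≤ 2, ∀ c : Fin N → Fin N → Fin N → Fin N → ℝ,
      (∀ b i j k, c b i j k = c b j i k ∧ c b i j k = c b i k j) →
      Conditions (fun _ _ _ => 0) (constBeta c) →
      HasNondegenerateLaw (system (fun _ _ _ => 0) (constBeta c)) 1) ∧
    (∀ N, 3 ≤ N → ∃ (α : Fin N → Fin N → Fin N → MvPolynomial (Fin N) ℝ)
      (β : Fin N → Fin N → Fin N → Fin N → MvPolynomial (Fin N) ℝ),
      (∀ i j k, α i j k = α i k j) ∧
      (∀ i j k m, β i j k m = β i k j m ∧ β i j k m = β i j m k) ∧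
      Conditions α β ∧
      ∀ k, 1 ≤ k → ¬ HasNondegenerateLaw (system α β) k) := by
  have part2 : ∀ (N : ℕ) (v : Fin N) (c : Fin N → Fin N → Fin N → ℝ),
      (∀ i j k, c i j k = c j i k ∧ c i j k = c i k j) → (∀ j k, c v j k = 0) →
      Conditions (fun _ _ _ => 0) (constBeta (single v c)) ∧
      ((∃ k, 1 ≤ k ∧ HasNondegenerateLaw (system (fun _ _ _ => 0) (constBeta (single v c))) k) ↔
        ∃ (a : ℝ) (w : Fin N → ℝ), ∀ i j k, c i j k = a * w i * w j * w k) := by
    intro N v c hc hv
    refine ⟨single_conditions hc hv, ?_⟩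
    rw [(classification (single_symm hc)).1]
    constructor
    · rintro ⟨M, -, hdet, hinv⟩
      exact cube_of_form hc M hdet hinv
    · rintro ⟨a, w, h⟩
      exact form_of_cube hv a w h
  refine ⟨fun N c hc => classification hc, part2, ?_, ?_⟩
  · intro N hN c hc hcond
    apply (classification hc).2
    exact form_le_two hN hc (comm_of hc (c5_of hcond))
  · intro N hN
    obtain ⟨v, c, hc, hv, hnc⟩ := exists_noncube N hN
    obtain ⟨h1, h2⟩ := part2 N v c hc hv
    refine ⟨fun _ _ _ => 0, constBeta (single v c), fun _ _ _ => rfl, ?_, h1, ?_⟩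
    · intro i j k m
      unfold constBeta
      rw [← (single_symm hc i j k m).1, ← (single_symm hc i j k m).2]
      exact ⟨rfl, rfl⟩
    · intro k hk h
      exact hnc (h2.1 ⟨k, hk, h⟩)

end Pool.Agent.Results.MP_027f17_mp.InvariantForms
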